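import Pool.Agent.H66.IQ.TD
import Pool.Agent.H70.EH.RL2
import Pool.Agent.H91.XQ.CWS

/-!
# GWA: a game whose leaves are formulas on strings of given weight

A random restriction turns the leaves into decision trees; the strings of weight `W` which extend the
restriction are the strings of given weight on the free variables.
-/

set_option autoImplicit false

namespace Pool.Agent.H88.IQ

open Finset Pool.Agent.H6.NB Pool.Agent.H70.EH Pool.Agent.H78.XQ
open Pool.Agent.H66.IQ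
open Pool.Agent.H68.AC (PA Wt fd Ext ind)

namespace GWA

variable {V : Type} [Fintype V] [DecidableEq V]

theorem mn_01 (F : (V → Bool) → ℝ) (h0 : ∀ y, 0 ≤ F y) (h1 : ∀ y, F y ≤ 1) :
    0 ≤ mn F ∧ mn F ≤ 1 := by
  refine ⟨Pool.Agent.H70.EH.RL2.mn_nonneg F h0, ?_⟩
  unfold mn
  rw [div_le_one (by positivity)]
  calc ∑ y, F y ≤ ∑ _y : V → Bool, (1 : ℝ) := Finset.sum_le_sum fun y _ => h1 y
    _ = 2 ^ Fintype.card V := by
        rw [Finset.sum_const, Finset.card_univ, nsmul_eq_mul, mul_one, Fintype.card_fun,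
          Fintype.card_bool]
        push_cast
        rfl

theorem mn_one : mn (fun _ : V → Bool => (1 : ℝ)) = 1 := by
  unfold mn
  rw [Finset.sum_const, Finset.card_univ, nsmul_eq_mul, mul_one, Fintype.card_fun,
    Fintype.card_bool]
  push_cast
  exact div_self (by positivity)

theorem mn_compl (F : (V → Bool) → ℝ) : mn (fun y => 1 - F y) = 1 - mn F := by
  have h := mn_one (V := V)
  unfold mn at *
  rw [Finset.sum_sub_distrib, sub_div, h]

theorem wm_nonneg (κ : V → Option Bool) (W : ℕ) (F : (V → Bool) → ℝ) (h0 : ∀ y, 0 ≤ F y) :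
    0 ≤ wm κ W F := div_nonneg (Finset.sum_nonneg fun y _ => h0 y) (Nat.cast_nonneg _)

theorem ws_pos (κ : V → Option Bool) (W : ℕ) (h1 : nv κ (some true) ≤ W)
    (h2 : W ≤ nv κ (some true) + nv κ none) : 0 < (ws κ W).card := by
  rw [Pool.Agent.H91.XQ.cws V κ W h1]
  exact Nat.choose_pos (by omega)

theorem wm_compl (κ : V → Option Bool) (W : ℕ) (F : (V → Bool) → ℝ) (h : 0 < (ws κ W).card) :
    wm κ W (fun y => 1 - F y) = 1 - wm κ W F := by
  unfold wm
  have h' : (0 : ℝ) < (ws κ W).card := by exact_mod_cast h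
  rw [Finset.sum_sub_distrib, sub_div, Finset.sum_const, nsmul_eq_mul, mul_one,
    div_self h'.ne']

theorem ind_nonneg (P : Prop) : 0 ≤ ind P := by
  unfold ind
  split_ifs <;> norm_num

theorem ind_one (P : Prop) (h : P) : ind P = 1 := by
  unfold ind
  rw [if_pos h]

omit [DecidableEq V] in
theorem nv_none_card (κ : V → Option Bool) : Fintype.card {v // κ v = none} = nv κ none := by
  unfold nv
  rw [Fintype.card_subtype]

theorem wm_rst (κ : V → Option Bool) (W : ℕ) (F : (V → Bool) → ℝ) :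
    wm κ W (rst κ F) = wm κ W F := by
  unfold wm
  congr 1
  refine Finset.sum_congr rfl fun y hy => ?_
  have hE : Ext κ y := by
    unfold ws at hy
    simp only [Finset.mem_filter] at hy
    exact hy.2.1
  unfold rst
  congr 1
  funext v
  rcases hκ : κ v with _ | b
  · rfl
  · exact (hE v b hκ).symm

omit [Fintype V] [DecidableEq V] in
theorem rst_rst (κ : V → Option Bool) (F : (V → Bool) → ℝ) : rst κ (rst κ F) = rst κ F := by
  funext y
  unfold rst
  congr 1
  funext v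
  rcases hκ : κ v with _ | b
  · simp [hκ]
  · rfl

omit [DecidableEq V] in
/-- the numbers of a good restriction -/
theorem nums (κ : V → Option Bool) (W : ℕ) (M δ p L : ℝ) (hp : 0 < p) (hδ : 0 < δ) (hM : 0 < M)
    (hLp : L * p = 1) (hδL : 40 * δ * L ≤ 1)
    (hW : |(W : ℝ) - M / 2| ≤ δ * M)
    (hm : |(nv κ none : ℝ) - p * M| ≤ δ * M)
    (ho : |(nv κ (some true) : ℝ) - (1 - p) / 2 * M| ≤ δ * M) :
    nv κ (some true) ≤ W ∧ W ≤ nv κ (some true) + nv κ none ∧ p * M / 2 ≤ (nv κ none : ℝ) ∧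
      |((W - nv κ (some true) : ℕ) : ℝ) - (nv κ none : ℝ) / 2| ≤ 5 * δ * L * (nv κ none : ℝ) := by
  obtain ⟨hW1, hW2⟩ := abs_le.1 hW
  obtain ⟨hm1, hm2⟩ := abs_le.1 hm
  obtain ⟨ho1, ho2⟩ := abs_le.1 ho
  have hδM : 0 ≤ δ * M := mul_nonneg hδ.le hM.le
  have h40 : 40 * δ ≤ p := by
    have h := mul_le_mul_of_nonneg_right hδL hp.le
    have e : 40 * δ * L * p = 40 * δ * (L * p) := by ring
    rw [e, hLp] at h
    linarith
  have h40M : 40 * (δ * M) ≤ p * M := by
    have h := mul_le_mul_of_nonneg_right h40 hM.le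
    linarith
  have hmp : p * M / 2 ≤ (nv κ none : ℝ) := by linarith
  have h1 : (nv κ (some true) : ℝ) ≤ W := by linarith
  have h2 : (W : ℝ) ≤ (nv κ (some true) : ℝ) + nv κ none := by linarith
  have h1' : nv κ (some true) ≤ W := by exact_mod_cast h1
  have h2' : W ≤ nv κ (some true) + nv κ none := by exact_mod_cast h2
  refine ⟨h1', h2', hmp, ?_⟩
  rw [Nat.cast_sub h1']
  have hL : 0 < L := by
    by_contra hL
    push Not at hL
    have := mul_nonpos_of_nonpos_of_nonneg hL hp.le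
    linarith
  have h3 : 5 * δ * L * (p * M / 2) ≤ 5 * δ * L * (nv κ none : ℝ) :=
    mul_le_mul_of_nonneg_left hmp (by positivity)
  have e3 : 5 * δ * L * (p * M / 2) = 5 / 2 * (δ * M) * (L * p) := by ring
  rw [e3, hLp] at h3
  rw [abs_le]
  constructor <;> linarith

/-- the error terms of a good restriction -/
theorem errs (m M p L : ℝ) (w : ℕ) (a : ℝ) (hM : 0 < M) (hp : 0 < p) (hLp : L * p = 1)
    (hm : p * M / 2 ≤ m) :
    4 * (w : ℝ) * (a + 1 / √m) + 16 / m ≤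
      4 * (w : ℝ) * (a + √(2 * L / M)) + 32 * L / M := by
  have hpM : 0 < p * M / 2 := by positivity
  have hL : L = 1 / p := by
    rw [eq_div_iff hp.ne']
    exact hLp
  have h1 : 16 / m ≤ 32 * L / M := by
    calc 16 / m ≤ 16 / (p * M / 2) := div_le_div_of_nonneg_left (by norm_num) hpM hm
      _ = 32 * L / M := by
          rw [hL]
          field_simp
          norm_num
  have h2 : 1 / √m ≤ √(2 * L / M) := by
    have e : 2 * L / M = 1 / (p * M / 2) := by
      rw [hL]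
      field_simp
    rw [e, ← Real.sqrt_one, ← Real.sqrt_div' _ (by linarith), Real.sqrt_one]
    exact Real.sqrt_le_sqrt (div_le_div_of_nonneg_left (by norm_num) hpM hm)
  have hw : (0 : ℝ) ≤ 4 * w := by positivity
  have h3 := mul_le_mul_of_nonneg_left (add_le_add_left h2 a) hw
  linarith

/-- the game of a good restriction -/
theorem good (hGWT : T_GWT) (hKST : T_KST) (κ : V → Option Bool) (W w : ℕ) (t t' : Tr V)
    (hwd : t'.wd ≤ w) (hev : ∀ y, t'.ev y = rst κ t.ev y)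
    (M δ p L : ℝ) (hp : 0 < p) (hδ : 0 < δ) (hM : 0 < M)
    (hLp : L * p = 1) (hδL : 40 * δ * L ≤ 1)
    (hW : |(W : ℝ) - M / 2| ≤ δ * M)
    (hm : |(nv κ none : ℝ) - p * M| ≤ δ * M)
    (ho : |(nv κ (some true) : ℝ) - (1 - p) / 2 * M| ≤ δ * M) :
    |wm κ W t.ev - mn (rst κ t.ev)| ≤
      4 * (w : ℝ) * (5 * δ * L + √(2 * L / M)) + 32 * L / M := by
  obtain ⟨h1, h2, h3, h4⟩ := nums κ W M δ p L hp hδ hM hLp hδL hW hm ho
  obtain ⟨t'', -, -, hw2, hwm, hmn⟩ := hKST V κ W t' h1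
  have hpM : 0 < p * M / 2 := by positivity
  have hnv : 0 < nv κ none := by
    have : (0 : ℝ) < nv κ none := lt_of_lt_of_le hpM h3
    exact_mod_cast this
  have hcard := nv_none_card κ
  have hne : Nonempty {v // κ v = none} := by
    rw [← Fintype.card_pos_iff, hcard]
    exact hnv
  have hL : 0 < L := by
    by_contra hL
    push Not at hL
    have := mul_nonpos_of_nonpos_of_nonneg hL hp.le
    linarith
  have h5 : 0 ≤ 5 * δ * L := by positivity
  have h6 : 5 * δ * L ≤ 1 / 8 := by linarith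
  have hF : t'.ev = rst κ t.ev := funext hev
  rw [hF, wm_rst] at hwm
  rw [hF, rst_rst] at hmn
  have h7 := hGWT {v // κ v = none} (W - nv κ (some true)) w (5 * δ * L) t'' h5 h6
    (hw2.trans hwd) (by rw [hcard]; exact h4)
  rw [hcard] at h7
  rw [hwm, hmn]
  exact h7.trans (errs (nv κ none : ℝ) M p L w (5 * δ * L) hM hp hLp h3)

/-- the lower bound -/
theorem low (hEXC : Pool.Agent.H78.XQ.T_EXC) (D W : ℕ) (q e B1 B2 : ℝ)
    (P1 P2 : (Fin D → PA V) → Prop) (F : (V → Bool) → ℝ) (hq0 : 0 ≤ q) (hq1 : q ≤ 1)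
    (h0 : ∀ y, 0 ≤ F y) (h1 : ∀ y, F y ≤ 1) (he : 0 ≤ e)
    (hB1 : ∑ R, Wt q (1 / 2) R * ind (P1 R) ≤ B1)
    (hB2 : ∑ R, Wt q (1 / 2) R * ind (P2 R) ≤ B2)
    (hg : ∀ R, ¬ P1 R → ¬ P2 R → mn (rst (fd R D) F) - e ≤ wm (fd R D) W F) :
    mn F - e - (B1 + B2) ≤ wm (fun _ => none) W F := by
  have hpt : ∀ R : Fin D → PA V, mn (rst (fd R D) F) - e - (ind (P1 R) + ind (P2 R)) ≤
      wm (fd R D) W F := by
    intro R
    have hr := mn_01 (rst (fd R D) F) (fun y => h0 _) (fun y => h1 _)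
    have hw0 := wm_nonneg (fd R D) W F h0
    have e1 := ind_nonneg (P1 R)
    have e2 := ind_nonneg (P2 R)
    by_cases c1 : P1 R
    · have e3 := ind_one _ c1
      linarith [hr.2]
    by_cases c2 : P2 R
    · have e3 := ind_one _ c2
      linarith [hr.2]
    have := hg R c1 c2
    linarith
  have hW0 : ∀ R : Fin D → PA V, 0 ≤ Wt q (1 / 2) R := fun R =>
    Pool.Agent.H90.AC.Wt_nonneg hq0 hq1 (by norm_num) (by norm_num) R
  have hsum := Finset.sum_le_sum fun (R : Fin D → PA V) (_ : R ∈ univ) =>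
    mul_le_mul_of_nonneg_left (hpt R) (hW0 R)
  have hE := hEXC V D q W F hq0 hq1 h0
  have hmn := Pool.Agent.H70.EH.RL2.sum_mn D q F
  have hone := Pool.Agent.H70.EH.RL2.sum_mn D q (fun _ : V → Bool => (1 : ℝ))
  have hone' : ∑ R : Fin D → PA V, Wt q (1 / 2) R = 1 := by
    rw [mn_one] at hone
    refine Eq.trans (Finset.sum_congr rfl fun R _ => ?_) hone
    have : rst (fd R D) (fun _ : V → Bool => (1 : ℝ)) = fun _ => (1 : ℝ) := rfl
    rw [this, mn_one, mul_one]
  have e : ∑ R : Fin D → PA V, Wt q (1 / 2) R *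
      (mn (rst (fd R D) F) - e - (ind (P1 R) + ind (P2 R))) =
      ∑ R : Fin D → PA V, Wt q (1 / 2) R * mn (rst (fd R D) F) -
      e * (∑ R : Fin D → PA V, Wt q (1 / 2) R) -
      (∑ R : Fin D → PA V, Wt q (1 / 2) R * ind (P1 R) +
        ∑ R : Fin D → PA V, Wt q (1 / 2) R * ind (P2 R)) := by
    rw [Finset.mul_sum, ← Finset.sum_add_distrib, ← Finset.sum_sub_distrib,
      ← Finset.sum_sub_distrib]
    refine Finset.sum_congr rfl fun R _ => ?_
    ring
  rw [e, hmn, hone'] at hsum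
  linarith

end GWA

/-- GWA: a game whose leaves are formulas on strings of given weight. -/
theorem pf_GWA (hSWD : T_SWD) (hGWT : T_GWT) (hKST : T_KST) (hEVS : T_EVS)
    (hHOE : Pool.Agent.H78.XQ.T_HOE) (hEXC : Pool.Agent.H78.XQ.T_EXC) : T_GWA := by
  intro V _ _ _ S d w W δ t hw hδ hδL hCb hW
  obtain ⟨Bad, hBad, hGood⟩ := hSWD V S d w t hw hCb
  have hwr : (1 : ℝ) ≤ w := by exact_mod_cast hw
  have hM : (0 : ℝ) < Fintype.card V := by exact_mod_cast Fintype.card_pos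
  have hnv0 : nv (fun _ : V => (none : Option Bool)) (some true) = 0 := by
    unfold nv
    simp
  have hnv1 : nv (fun _ : V => (none : Option Bool)) none = Fintype.card V := by
    unfold nv
    simp
  obtain ⟨M, hMe⟩ : ∃ M : ℝ, M = Fintype.card V := ⟨_, rfl⟩
  obtain ⟨q, hq⟩ : ∃ q : ℝ, q = 1 / (128 * (w : ℝ)) := ⟨_, rfl⟩
  obtain ⟨L, hL⟩ : ∃ L : ℝ, L = (128 * (w : ℝ)) ^ (d + 1) := ⟨_, rfl⟩
  have hq0 : 0 < q := by rw [hq]; positivity
  have hq1 : q ≤ 1 := by
    rw [hq, div_le_one (by positivity)]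
    linarith
  have hL1 : 1 ≤ L := by
    rw [hL]
    exact one_le_pow₀ (by linarith)
  have hLp : L * q ^ (d + 1) = 1 := by
    rw [hL, ← mul_pow, hq]
    have : 128 * (w : ℝ) * (1 / (128 * w)) = 1 := by field_simp
    rw [this, one_pow]
  have hH := hHOE V (d + 1) q δ hq0 hq1 hδ.le
  rw [← hq] at hBad
  rw [← hMe] at hW hM hH ⊢
  rw [← hL] at hδL ⊢
  obtain ⟨p, hp⟩ : ∃ p : ℝ, p = q ^ (d + 1) := ⟨_, rfl⟩
  rw [← hp] at hLp hH
  have hp0 : 0 < p := by rw [hp]; positivity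
  have hδ1 : δ ≤ 1 / 40 := by
    have : 40 * δ ≤ 40 * δ * L := le_mul_of_one_le_right (by positivity) hL1
    linarith
  have hδM : δ * M ≤ 1 / 40 * M := mul_le_mul_of_nonneg_right hδ1 hM.le
  have hWM : (W : ℝ) ≤ M := by
    have := (abs_le.1 hW).2
    linarith
  rw [hMe] at hWM
  have hWN : W ≤ Fintype.card V := by exact_mod_cast hWM
  have hws : 0 < (ws (fun _ : V => (none : Option Bool)) W).card :=
    GWA.ws_pos _ W (by rw [hnv0]; exact Nat.zero_le _) (by rw [hnv0, hnv1, zero_add]; exact hWN)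
  have hF0 : ∀ y, 0 ≤ t.ev y := fun y =>
    (hEVS V 1 t y one_pos).1.trans (hEVS V 1 t y one_pos).2.1
  have hF1 : ∀ y, t.ev y ≤ 1 := fun y => (hEVS V 1 t y one_pos).2.2.1
  obtain ⟨e, he⟩ : ∃ e : ℝ, e = 4 * (w : ℝ) * (5 * δ * L + √(2 * L / M)) + 32 * L / M := ⟨_, rfl⟩
  have he0 : 0 ≤ e := by
    rw [he]
    positivity
  have hgood : ∀ R : Fin (d + 1) → PA V, ¬ Bad R →
      ¬ (¬ (|(nv (fd R (d + 1)) none : ℝ) - p * M| ≤ δ * M ∧
        |(nv (fd R (d + 1)) (some true) : ℝ) - (1 - p) / 2 * M| ≤ δ * M)) →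
      |wm (fd R (d + 1)) W t.ev - mn (rst (fd R (d + 1)) t.ev)| ≤ e ∧
        0 < (ws (fd R (d + 1)) W).card := by
    intro R h1 h2
    rw [not_not] at h2
    obtain ⟨t', -, -, hwd, hev, -⟩ := hGood R h1
    have h3 := GWA.good hGWT hKST (fd R (d + 1)) W w t t' hwd hev M δ p L hp0 hδ hM hLp hδL hW
      h2.1 h2.2
    obtain ⟨n1, n2, -, -⟩ := GWA.nums (fd R (d + 1)) W M δ p L hp0 hδ hM hLp hδL hW h2.1 h2.2
    rw [← he] at h3
    exact ⟨h3, GWA.ws_pos _ W n1 n2⟩
  have hlow := GWA.low hEXC (d + 1) W q e _ _ Bad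
    (fun R => ¬ (|(nv (fd R (d + 1)) none : ℝ) - p * M| ≤ δ * M ∧
        |(nv (fd R (d + 1)) (some true) : ℝ) - (1 - p) / 2 * M| ≤ δ * M)) t.ev hq0.le hq1 hF0 hF1
    he0 hBad hH (fun R h1 h2 => by
      have := (abs_le.1 (hgood R h1 h2).1).1
      linarith)
  have hupp := GWA.low hEXC (d + 1) W q e _ _ Bad
    (fun R => ¬ (|(nv (fd R (d + 1)) none : ℝ) - p * M| ≤ δ * M ∧
        |(nv (fd R (d + 1)) (some true) : ℝ) - (1 - p) / 2 * M| ≤ δ * M))
    (fun y => 1 - t.ev y) hq0.le hq1 (fun y => by linarith [hF1 y]) (fun y => by linarith [hF0 y])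
    he0 hBad hH (fun R h1 h2 => by
      have h3 := (abs_le.1 (hgood R h1 h2).1).2
      rw [GWA.wm_compl _ _ _ (hgood R h1 h2).2]
      have h4 : rst (fd R (d + 1)) (fun y => 1 - t.ev y) =
          fun y => 1 - rst (fd R (d + 1)) t.ev y := rfl
      rw [h4, GWA.mn_compl]
      linarith)
  rw [GWA.wm_compl _ _ _ hws, GWA.mn_compl] at hupp
  rw [abs_le]
  constructor <;> linarith

end Pool.Agent.H88.IQ
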